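import Pool.Agent.W206.MS.Final

/-!
# The monoid Stark conjecture reduces to maximal orders

For every order `O` of a real quadratic field `K`, every modulus `m` of `O` and every order `O'`
containing `O`: if the monoid Stark assertion (i)-(iv) holds for `O'` and the colon ideal
`(m : O')`, then it holds for `O` and `m`.  Hence the conjecture for all orders of `K` is
equivalent to its case of the maximal order, that is, to the Stark-Tate conjecture.

The units are obtained as products `ε_A = ∏ ε_q ^ n(q, A)` over the classes `q` of the ray class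
monoid of `O'`, where `n(q, A)` counts the ideals of `O` in the class `A` whose extension to `O'`
is a given ideal in the class `q`.

`K` is viewed as a subfield of `ℝ` through the embedding `algebraMap K ℝ` (the place `∞₁`), and
`σ` is the other embedding (the place `∞₂`).
-/

namespace Pool.Agent.Results.MP_6bf7a3_nt.ReductionToMaximalOrder

open Pool.Agent.W206.MS

theorem result (K : Type) [Field K] [NumberField K] [Algebra K ℝ]
    (_hK : Module.finrank ℚ K = 2) (σ : K →+* ℝ) (_hσ : σ ≠ algebraMap K ℝ) :
    (∀ (O O' : Subalgebra ℤ K) (m : Submodule ℤ K), IsOrder O → IsOrder O' → O ≤ O' →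
      IsModulus O m → IsModulus O' (m / OL O') ∧
        (MonoidStark σ O' (m / OL O') → MonoidStark σ O m)) ∧
    ((∀ (O : Subalgebra ℤ K) (m : Submodule ℤ K), IsOrder O → IsModulus O m →
        MonoidStark σ O m) ↔
      (∀ m : Submodule ℤ K, IsModulus (integralClosure ℤ K) m →
        MonoidStark σ (integralClosure ℤ K) m)) := by
  have key : ∀ (O O' : Subalgebra ℤ K) (m : Submodule ℤ K), IsOrder O → IsOrder O' → O ≤ O' →
      IsModulus O m → IsModulus O' (m / OL O') ∧
        (MonoidStark σ O' (m / OL O') → MonoidStark σ O m) := by
    intro O O' m hO hO' hle hm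
    exact ⟨colon_isModulus hO hO' hle hm, reduction σ (mkPair hO hO' hle hm)⟩
  have hmax := isOrder_maxOrder K
  refine ⟨key, fun h m hm => h _ m hmax hm, fun h O m hO hm => ?_⟩
  obtain ⟨h1, h2⟩ := key O (integralClosure ℤ K) m hO hmax (mem_maxOrder_of_fg hO.1) hm
  exact h2 (h _ h1)

end Pool.Agent.Results.MP_6bf7a3_nt.ReductionToMaximalOrder
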